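import Pool.Agent.R557.DSCode

/-!
# MP_39a050_lc: the dimension spectrum of a trigonometric polynomial is never a single number

The objects are (`Pool.Agent.TH676.CK`, `Pool.Agent.R557.DS`):

* `OptPFree U` : `U` is an optimal (universal) prefix-free machine; `cx U w` is the complexity `K(w)`
  of the string `w`;
* `IsCoding c` : `c` is an injective computable coding of the rational points of the plane by binary
  strings;
* `Kr U c r x y` : the complexity `K_r(x, y)` of the point `(x, y)` at precision `r`, the least
  `K(c q)` over the rational points `q` at Euclidean distance less than `2 ^ (-r)` from `(x, y)`;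
* `edim U c x y` : the effective Hausdorff dimension `liminf K_r(x, y) / r` of `(x, y)`.
-/

set_option autoImplicit false

namespace Pool.Agent.Results.MP_39a050_lc.NeverSingleton

open Finset
open Pool.Agent.TH676.CK (OptPFree)
open Pool.Agent.R557.DS (IsCoding edim tp main exists_coding)

/-- For every optimal prefix-free machine `U`, every computable coding `c` of the rational points,
and every trigonometric polynomial `f(x) = a₀ + ∑ (a_k cos kx + b_k sin kx)` with real coefficients
there are points `x`, `y` with `dim (x, f(x)) ≠ dim (y, f(y))`. (Such `U` and `c` exist.) -/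
theorem result :
    (∃ U : List Bool →. List Bool, OptPFree U) ∧ (∃ c : ℚ × ℚ → List Bool, IsCoding c) ∧
    ∀ (U : List Bool →. List Bool), OptPFree U → ∀ (c : ℚ × ℚ → List Bool), IsCoding c →
      ∀ (m : ℕ) (a b : ℕ → ℝ) (f : ℝ → ℝ),
        (∀ x, f x = a 0 + ∑ k ∈ Icc 1 m, (a k * Real.cos (k * x) + b k * Real.sin (k * x))) →
        ∃ x y : ℝ, edim U c x (f x) ≠ edim U c y (f y) := by
  refine ⟨Pool.Agent.TH676.CK.exists_optPFree, exists_coding, fun U hU c hc m a b f hf => ?_⟩
  obtain ⟨x, y, h⟩ := main U hU c hc m a b
  refine ⟨x, y, ?_⟩
  have e : f = tp m a b := by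
    funext x
    rw [hf x]
    rfl
  rw [e]
  exact h

end Pool.Agent.Results.MP_39a050_lc.NeverSingleton
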